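import Pool.Agent.H194.MV.C2

set_option autoImplicit false

/-!
# MP_d6acc2_an: for `m > 4` exponents below `-1/2` are admissible

Let `γ = 5291 / 10000` and `ρ = (1 + γ) / (3 - γ) = 15291 / 24709 = 0.6188...`. For every `m ≥ 1` every
exponent larger than `-γ + γ ρ ^ (2 (m - 1))` is admissible for `m`, so that
`α_m^* ≤ -γ (1 - ρ ^ (2 (m - 1)))`. For `m > 4` the exponent `-517/1000` is admissible, so the third
conjecture of the problem (for `m > 4` some exponent below `-1/2` is admissible) is true.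

The bound known before (the library's `GeometricBound`) has `γ = 1 / 2`, `ρ = 3 / 5` and never goes
below `-1/2`; Pommerenke's bound `-1/2 + 2/m²` is for large `m`.

The proof. Let `B = 1 - γ = 0.4709`.
1. (B1) For every univalent `F` in the disc, `c = F'(0)`, the mean over `|v| = r` of
   `|c F'(v) v² / (F(v) - F(0))²|` is at most `C (1 - r²) ^ (-B)`, with an absolute constant. This is the
   integral mean `t = 1` of the derivative of the exterior map `c / (F - F(0))`, by Hölder's inequality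
   from `t = 2` (area theorem) and `t = 17/100` (power area inequalities; both from the library).
2. (B2) The local estimate. If `|f(w)| ≤ R`, the integral of `|f'|` over the part of the annulus
   `1 - 2/n < |z| < 1 - 1/n` which lies in the shadow of `w` and where `|f| ≤ R` is at most
   `C R² / |f'(w)| (n (1 - |w|)) ^ (B - 1)`: put `F = f ∘ φ_w`, `φ_w` the automorphism of the disc with
   `φ_w(0) = w`.
3. (B4 - B8) For a point `z` of the annulus with `|f(z)|` of size `R` there is a point `w` on the radius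
   with `R n^(-3ε) ≤ |f(w)| ≤ R n^(-ε)` and `(1 - |w|) |f'(w)| ≥ ε |f(w)|`. The energy of `log f` is
   `O(log n)`, so `O(log n)` such points `w` are enough.
4. (B9, B10) For `g = f ∏ (z - ζ_l)`, `|ζ_l| = 1`, it follows that the coefficients with index near `n`
   are at most `n ^ (B - 1 + ε)` times the supremum of `|g(z)| (1 - |z|) ^ B` over `|z| ≤ 1 - 1/n`. (In
   the library's proof, with the area theorem only, the weight is `(1 - |z|) ^ (1/2)`.)
5. (C1, C2) The points `ζ_l` are chosen greedily. A linear programming certificate (star inequality of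
   the library) bounds the supremum in 4 by `n ^ (γ ρ ^ (2 (m - 1)) + ε)`.
-/

open Metric Set

namespace Pool.Agent.Results.MP_d6acc2_an.BelowMinusHalf

/-- the class `S` of normalised univalent functions -/
def ClassS (f : ℂ → ℂ) : Prop :=
  DifferentiableOn ℂ f (ball (0:ℂ) 1) ∧ InjOn f (ball (0:ℂ) 1) ∧ f 0 = 0 ∧ deriv f 0 = 1

/-- Taylor coefficients at `0` -/
noncomputable def taylorCoeff (f : ℂ → ℂ) (n : ℕ) : ℂ := iteratedDeriv n f 0 / (n.factorial : ℂ)

/-- `α` is admissible for `m` -/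
def AdmissibleS (m : ℕ) (α : ℝ) : Prop :=
  ∀ f : ℂ → ℂ, ClassS f → ∀ k : ℕ, 1 ≤ k → ∃ K : ℝ, ∀ n : ℕ, 1 ≤ n →
    ∃ c : ℕ → ℂ, c 0 = 1 ∧ (1 / 4 : ℝ) ^ m ≤ ‖c m‖ ∧
      ∀ j ≤ k, ‖∑ i ∈ Finset.range (m + 1), c i * taylorCoeff f (n + j + i)‖ ≤ K * (n : ℝ) ^ α

theorem admissibleS (m : ℕ) (hm : 1 ≤ m) (α : ℝ)
    (hα : -(5291 / 10000) + 5291 / 10000 * (15291 / 24709 : ℝ) ^ (2 * (m - 1)) < α) :
    AdmissibleS m α := by
  obtain ⟨k, rfl⟩ : ∃ k, m = k + 1 := ⟨m - 1, by omega⟩
  rw [Nat.add_sub_cancel] at hα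
  intro f hf j _
  obtain ⟨K, hK⟩ := Pool.Agent.H194.MV.admF_main k α (by
    have e1 : Pool.Agent.H194.MV.rr = 15291 / 24709 := by
      unfold Pool.Agent.H194.MV.rr Pool.Agent.H194.MV.aa
      norm_num
    rw [e1]
    unfold Pool.Agent.H194.MV.aa
    norm_num at hα ⊢
    linarith) hf.1 hf.2.1 hf.2.2.1 j
  exact ⟨K, fun n hn => hK n (by omega)⟩

/-- **Main theorem.** With `γ = 5291/10000` and `ρ = 15291/24709`: for every `m ≥ 1` every exponent
larger than `-γ + γ ρ ^ (2 (m - 1))` is admissible for `m`; for every `m > 4` the exponent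
`-517/1000 < -1/2` is admissible. -/
theorem result :
    (∀ m : ℕ, 1 ≤ m → ∀ α : ℝ,
      -(5291 / 10000) + 5291 / 10000 * (15291 / 24709 : ℝ) ^ (2 * (m - 1)) < α → AdmissibleS m α) ∧
    (∀ m : ℕ, 4 < m → AdmissibleS m (-(517 / 1000))) := by
  refine ⟨admissibleS, fun m hm => admissibleS m (by omega) _ ?_⟩
  have h1 : (15291 / 24709 : ℝ) ^ (2 * (m - 1)) ≤ (15291 / 24709 : ℝ) ^ 8 :=
    pow_le_pow_of_le_one (by norm_num) (by norm_num) (by omega)
  have h2 : (15291 / 24709 : ℝ) ^ 8 < 121 / 5291 := by norm_num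
  linarith

end Pool.Agent.Results.MP_d6acc2_an.BelowMinusHalf
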